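import Pool.Agent.Helper156.CWilf.Tri

/-!
# The two alternating signatures of the same size are c-Wilf-equivalent
-/

set_option autoImplicit false

open scoped BigOperators

namespace Pool.Agent.Results.MP_ccaf84_co.AlternatingCWilf

open Pool.Agent.Helper156.CWilf

/-- Membership in the class of the signature `σ` (`true` is `+`, `false` is `-`): there are
integers `0 = e 0 ≤ e 1 ≤ ... ≤ e k = n` such that on the block of positions
`e i ≤ x < e (i + 1)` the permutation is increasing if `σ i` is `+` and decreasing if it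
is `-`. -/
def InClass {k n : ℕ} (σ : Fin k → Bool) (π : Equiv.Perm (Fin n)) : Prop :=
  ∃ e : Fin (k + 1) → ℕ, e 0 = 0 ∧ e (Fin.last k) = n ∧ Monotone e ∧
    ∀ i : Fin k, ∀ x y : Fin n, e i.castSucc ≤ (x : ℕ) → x < y → (y : ℕ) < e i.succ →
      if σ i = true then π x < π y else π y < π x

/-- The permutation consists of a single cycle through all points. -/
def Cyclic {n : ℕ} (π : Equiv.Perm (Fin n)) : Prop := ∀ x y, π.SameCycle x y

/-- The number of cyclic permutations of `n` points in the class of `σ`. -/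
noncomputable def cyc (n : ℕ) {k : ℕ} (σ : Fin k → Bool) : ℕ :=
  Nat.card {π : Equiv.Perm (Fin n) // Cyclic π ∧ InClass σ π}

/-- c-Wilf equivalence. -/
def CWilf {k l : ℕ} (σ : Fin k → Bool) (τ : Fin l → Bool) : Prop :=
  ∀ n : ℕ, 1 ≤ n → cyc n σ = cyc n τ

/-- The alternating signature of size `k` whose first sign is `ε`. -/
def alt (k : ℕ) (ε : Bool) : Fin k → Bool := fun i => if (i : ℕ) % 2 = 0 then ε else !ε

theorem at_pow {n : ℕ} (ρ : Equiv.Perm (Fin (n + 1))) (t : ℕ) :
    at' ρ t = ((pic ρ) ^ t) (ρ 0) := by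
  induction t with
  | zero =>
    rw [pow_zero, Equiv.Perm.one_apply]
    exact at_val ρ 0
  | succ t ih => rw [← pic_at, ih, pow_succ', Equiv.Perm.mul_apply]

theorem pic_cyclic {n : ℕ} (ρ : Equiv.Perm (Fin (n + 1))) : Cyclic (pic ρ) := by
  have h : ∀ x, (pic ρ).SameCycle (ρ 0) x := by
    intro x
    refine ⟨((ρ.symm x : ℕ) : ℤ), ?_⟩
    rw [zpow_natCast, ← at_pow, at_symm]
  intro x y
  exact (h x).symm.trans (h y)

theorem pic_inj {n : ℕ} {ρ ρ' : Equiv.Perm (Fin (n + 1))} (h : pic ρ = pic ρ')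
    (h0 : ρ 0 = ρ' 0) : ρ = ρ' := by
  ext i
  rw [← at_val ρ i, ← at_val ρ' i, at_pow, at_pow, h, h0]

theorem pic_surj {n : ℕ} (π : Equiv.Perm (Fin (n + 1))) (hπ : Cyclic π) (i : Fin (n + 1)) :
    ∃ ρ : Equiv.Perm (Fin (n + 1)), pic ρ = π ∧ ρ 0 = i := by
  have hc : π.IsCycleOn ((Finset.univ : Finset (Fin (n + 1))) : Set (Fin (n + 1))) := by
    refine ⟨?_, fun x _ y _ => hπ x y⟩
    rw [Finset.coe_univ, Set.bijOn_univ]
    exact π.bijective
  have hcard : (Finset.univ : Finset (Fin (n + 1))).card = n + 1 := by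
    rw [Finset.card_univ, Fintype.card_fin]
  let f : Fin (n + 1) → Fin (n + 1) := fun j => (π ^ (j : ℕ)) i
  have hf : Function.Surjective f := by
    intro y
    obtain ⟨m, hm, hmy⟩ := hc.exists_pow_eq (Finset.mem_univ i) (Finset.mem_univ y)
    rw [hcard] at hm
    exact ⟨⟨m, hm⟩, hmy⟩
  have hat : ∀ t, at' (Equiv.ofBijective f (Finite.surjective_iff_bijective.1 hf)) t
      = (π ^ t) i := by
    intro t
    show (π ^ (t % (n + 1))) i = (π ^ t) i
    rw [hc.pow_apply_eq_pow_apply (Finset.mem_univ i), hcard]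
    exact Nat.mod_modEq t (n + 1)
  refine ⟨Equiv.ofBijective f (Finite.surjective_iff_bijective.1 hf), ?_, ?_⟩
  · ext x
    rw [← at_symm (Equiv.ofBijective f (Finite.surjective_iff_bijective.1 hf)) x, pic_at, hat,
      hat, pow_succ', Equiv.Perm.mul_apply]
  · show (π ^ 0) i = i
    rw [pow_zero, Equiv.Perm.one_apply]

theorem card_pic (n : ℕ) (Q : Equiv.Perm (Fin (n + 1)) → Prop) :
    Nat.card {ρ : Equiv.Perm (Fin (n + 1)) // Q (pic ρ)} =
      Nat.card {π : Equiv.Perm (Fin (n + 1)) // Cyclic π ∧ Q π} * (n + 1) := by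
  have h1 : Nat.card (Fin (n + 1)) = n + 1 := by simp
  have h2 : Nat.card {π : Equiv.Perm (Fin (n + 1)) // Cyclic π ∧ Q π} * (n + 1) =
      Nat.card {π : Equiv.Perm (Fin (n + 1)) // Cyclic π ∧ Q π} * Nat.card (Fin (n + 1)) :=
    congrArg _ h1.symm
  rw [h2, ← Nat.card_prod]
  apply Nat.card_eq_of_bijective
    (fun ρ : {ρ : Equiv.Perm (Fin (n + 1)) // Q (pic ρ)} =>
      ((⟨pic ρ.1, pic_cyclic ρ.1, ρ.2⟩ : {π : Equiv.Perm (Fin (n + 1)) // Cyclic π ∧ Q π}),
        ρ.1 0))
  constructor
  · rintro ⟨ρ, h⟩ ⟨ρ', h'⟩ he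
    simp only [Prod.mk.injEq, Subtype.mk.injEq] at he
    exact Subtype.ext (pic_inj he.1 he.2)
  · rintro ⟨⟨π, hπ, hQ⟩, i⟩
    obtain ⟨ρ, h1, h2⟩ := pic_surj π hπ i
    refine ⟨⟨ρ, by rw [h1]; exact hQ⟩, ?_⟩
    simp only [Prod.mk.injEq, Subtype.mk.injEq]
    exact ⟨h1, h2⟩

theorem initial {N : ℕ} {f : Fin N → ℕ} (hf : Monotone f) (i : ℕ) (x : Fin N) :
    (x : ℕ) < (Finset.univ.filter (fun z => f z < i)).card ↔ f x < i := by
  constructor
  · intro h
    by_contra h1
    have h2 : Finset.univ.filter (fun z => f z < i) ⊆ Finset.Iio x := by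
      intro z hz
      rw [Finset.mem_filter] at hz
      rw [Finset.mem_Iio]
      by_contra h3
      have := hf (not_lt.1 h3)
      omega
    have h3 := Finset.card_le_card h2
    rw [Fin.card_Iio] at h3
    omega
  · intro h
    have h2 : Finset.Iic x ⊆ Finset.univ.filter (fun z => f z < i) := by
      intro z hz
      rw [Finset.mem_Iic] at hz
      rw [Finset.mem_filter]
      exact ⟨Finset.mem_univ _, lt_of_le_of_lt (hf hz) h⟩
    have h3 := Finset.card_le_card h2
    rw [Fin.card_Iic] at h3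
    omega

theorem inClass_iff {n k : ℕ} (ε : Bool) (π : Equiv.Perm (Fin (n + 1))) :
    InClass (alt k ε) π ↔ tr n ε (cc π) < k := by
  rw [← hc_pos, ← card_LabF, Finset.card_pos]
  constructor
  · rintro ⟨e, h0, hl, hm, hb⟩
    have hk : 0 < k := by
      rcases Nat.eq_zero_or_pos k with rfl | h
      · have : (Fin.last 0) = (0 : Fin 1) := rfl
        rw [this, h0] at hl
        omega
      · exact h
    let E : ℕ → ℕ := fun i => e ⟨min i k, by omega⟩
    have E0 : E 0 = 0 := by
      show e ⟨min 0 k, _⟩ = 0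
      have e1 : (⟨min 0 k, by omega⟩ : Fin (k + 1)) = 0 := Fin.ext (by simp)
      rw [e1, h0]
    have Ek : E k = n + 1 := by
      show e ⟨min k k, _⟩ = n + 1
      rw [← hl]
      congr 1
      exact Fin.ext (by simp)
    have hb' : ∀ i, i < k → ∀ x y : Fin (n + 1), E i ≤ (x : ℕ) → x < y → (y : ℕ) < E (i + 1) →
        if sgn ε i = true then π x < π y else π y < π x := by
      intro i hi x y hx hxy hy
      have e1 : E i = e (Fin.castSucc ⟨i, hi⟩) := by
        show e ⟨min i k, _⟩ = _
        congr 1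
        exact Fin.ext (by
          show min i k = i
          omega)
      have e2 : E (i + 1) = e (Fin.succ ⟨i, hi⟩) := by
        show e ⟨min (i + 1) k, _⟩ = _
        congr 1
        exact Fin.ext (by
          show min (i + 1) k = i + 1
          omega)
      rw [e1] at hx
      rw [e2] at hy
      exact hb ⟨i, hi⟩ x y hx hxy hy
    let f : Fin (n + 1) → ℕ := fun x => Nat.findGreatest (fun i => E i ≤ (x : ℕ)) (k - 1)
    have f1 : ∀ x : Fin (n + 1), E (f x) ≤ (x : ℕ) := by
      intro x
      exact Nat.findGreatest_spec (P := fun i => E i ≤ (x : ℕ)) (m := 0) (Nat.zero_le _) (by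
        show E 0 ≤ (x : ℕ)
        rw [E0]
        exact Nat.zero_le _)
    have f2 : ∀ x, f x < k := by
      intro x
      have : f x ≤ k - 1 := Nat.findGreatest_le _
      omega
    have f3 : ∀ x : Fin (n + 1), (x : ℕ) < E (f x + 1) := by
      intro x
      by_cases h : f x + 1 ≤ k - 1
      · have := Nat.findGreatest_is_greatest (P := fun i => E i ≤ (x : ℕ)) (n := k - 1)
          (Nat.lt_succ_self (f x)) h
        exact not_le.1 this
      · have h2 := f2 x
        have h3 : f x + 1 = k := by omega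
        rw [h3, Ek]
        exact x.2
    have f4 : Monotone f := by
      intro x y hxy
      apply Nat.le_findGreatest
      · have := f2 x
        omega
      · exact (f1 x).trans hxy
    refine ⟨f, mem_LabF.2 ⟨f2, f4, ?_⟩⟩
    intro j hj
    rw [cc_fin]
    have hlt : j.castSucc < j.succ := Fin.castSucc_lt_succ
    have h5 := hb' (f j.castSucc) (f2 _) j.castSucc j.succ (f1 _) hlt (by
      rw [hj]
      exact f3 _)
    rcases sz_cases ε (f j.castSucc) with ⟨hs, _⟩ | ⟨hs, _⟩
    · rw [hs]
      rw [if_pos hs] at h5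
      symm
      rw [decide_eq_true_iff]
      exact h5
    · rw [hs]
      rw [if_neg (by rw [hs]; simp)] at h5
      symm
      rw [decide_eq_false_iff_not]
      exact not_lt.2 h5.le
  · rintro ⟨f, hf⟩
    rw [mem_LabF] at hf
    refine ⟨fun i => (Finset.univ.filter (fun z => f z < (i : ℕ))).card, ?_, ?_, ?_, ?_⟩
    · show (Finset.univ.filter (fun z => f z < 0)).card = 0
      simp
    · show (Finset.univ.filter (fun z => f z < k)).card = n + 1
      rw [Finset.filter_true_of_mem (fun x _ => hf.1 x), Finset.card_univ, Fintype.card_fin]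
    · intro i j hij
      apply Finset.card_le_card
      intro z hz
      rw [Finset.mem_filter] at hz ⊢
      exact ⟨hz.1, lt_of_lt_of_le hz.2 hij⟩
    · intro i x y hx hxy hy
      have hx1 : ¬ f x < (i : ℕ) := by
        rw [← initial hf.2.1]
        exact not_lt.2 hx
      have hy1 : f y < (i : ℕ) + 1 := by
        rw [← initial hf.2.1]
        exact hy
      have hm := hf.2.1 hxy.le
      have e1 : f x = (i : ℕ) := by omega
      have e2 : f x = f y := by omega
      have h5 := all_pairs' hf hxy e2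
      rw [e1] at h5
      show if sgn ε (i : ℕ) = true then π x < π y else π y < π x
      by_cases hs : sgn ε (i : ℕ) = true
      · rw [if_pos hs]
        exact h5.2 hs
      · rw [if_neg hs]
        have h6 : ¬ π x < π y := fun h => hs (h5.1 h)
        rcases lt_or_eq_of_le (not_lt.1 h6) with h7 | h7
        · exact h7
        · exact absurd (π.injective h7) hxy.ne'

/-- For every `k ≥ 2`, in particular for every odd `k ≥ 5`, the two alternating signatures of
size `k` are c-Wilf-equivalent. -/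
theorem result (k : ℕ) (hk : 2 ≤ k) : CWilf (alt k true) (alt k false) := by
  intro N hN
  obtain ⟨n, rfl⟩ : ∃ n, N = n + 1 := ⟨N - 1, by omega⟩
  have key : ∀ ε : Bool, cyc (n + 1) (alt k ε) * (n + 1) =
      (Finset.univ.filter (fun ρ : Equiv.Perm (Fin (n + 1)) => tr n ε (cc (pic ρ)) < k)).card := by
    intro ε
    unfold cyc
    rw [← card_pic n (fun π => InClass (alt k ε) π)]
    rw [Nat.card_congr (Equiv.subtypeEquivRight
      (fun ρ : Equiv.Perm (Fin (n + 1)) => inClass_iff (k := k) ε (pic ρ)))]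
    rw [Nat.card_eq_fintype_card, Fintype.card_subtype]
  have h1 := key true
  have h2 := key false
  rw [card_tr_lt hk true false, ← h2] at h1
  exact Nat.eq_of_mul_eq_mul_right (Nat.succ_pos n) h1

end Pool.Agent.Results.MP_ccaf84_co.AlternatingCWilf
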